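import Pool.Agent.H13.MA.MStmts
import Mathlib.Tactic.Linarith
import Mathlib.Tactic.FieldSimp
import Mathlib.Tactic.Ring

/-!
Module ARC: halves, suprema and infima in the reals of `M`.
-/

set_option linter.unusedVariables false
set_option synthInstance.maxSize 100000

namespace SW

section
variable {M : Type} [SetStr M] [ZF M] (S : RNum M)

/-- the element of the field given by a member of the carrier -/
def arcT {a : M} (ha : E a S.R) : S.T := ⟨a, ha⟩

theorem arc_zero : S.hh emp = S.u := by unfold RNum.hh; exact orec_zero inferInstance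

theorem arc_hf : E S.hf S.R := S.inv_mem (S.add_mem S.ax.one_mem S.ax.one_mem)

theorem arc_mul {n : M} (hn : E n om) : S.hh (suc n) = S.mul S.hf (S.hh n) := by
  unfold RNum.hh; exact orec_suc inferInstance hn

theorem arc_mem {n : M} (hn : E n om) : E (S.hh n) S.R := by
  refine om_ind (C := fun n => E (S.hh n) S.R) inferInstance ?_ ?_ n hn
  · rw [arc_zero]; exact S.ax.one_mem
  · intro n hn ih
    rw [arc_mul S hn]
    exact S.mul_mem (arc_hf S) ih

theorem arc_le_refl {a : M} (ha : E a S.R) : S.le a a := le_refl (arcT S ha)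

theorem arc_le_trans {a b c : M} (ha : E a S.R) (hb : E b S.R) (hc : E c S.R)
    (h1 : S.le a b) (h2 : S.le b c) : S.le a c := by
  have h1' : (arcT S ha) ≤ (arcT S hb) := h1
  have h2' : (arcT S hb) ≤ (arcT S hc) := h2
  exact h1'.trans h2'

theorem arc_le_of_lt {a b : M} (h : S.lt a b) : S.le a b := h.1

theorem arc_le_total {a b : M} (ha : E a S.R) (hb : E b S.R) : S.le a b ∨ S.le b a :=
  le_total (arcT S ha) (arcT S hb)

theorem arc_lt_of_not_le {a b : M} (ha : E a S.R) (hb : E b S.R) (h : ¬ S.le a b) : S.lt b a :=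
  (RNum.coe_lt S (a := arcT S hb) (b := arcT S ha)).1
    (not_le.1 (h : ¬ (arcT S ha) ≤ (arcT S hb)))

theorem arc_not_le_of_lt {a b : M} (ha : E a S.R) (hb : E b S.R) (h : S.lt b a) : ¬ S.le a b :=
  not_le.2 (S.coe_lt.2 h : (arcT S hb) < arcT S ha)

theorem arc_lt_of_lt_of_le {a b c : M} (ha : E a S.R) (hb : E b S.R) (hc : E c S.R)
    (h1 : S.lt a b) (h2 : S.le b c) : S.lt a c := by
  have h1' : (arcT S ha) < (arcT S hb) := S.coe_lt.2 h1
  have h2' : (arcT S hb) ≤ (arcT S hc) := h2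
  exact S.coe_lt.1 (h1'.trans_le h2')

theorem arc_lt_of_le_of_lt {a b c : M} (ha : E a S.R) (hb : E b S.R) (hc : E c S.R)
    (h1 : S.le a b) (h2 : S.lt b c) : S.lt a c := by
  have h1' : (arcT S ha) ≤ (arcT S hb) := h1
  have h2' : (arcT S hb) < (arcT S hc) := S.coe_lt.2 h2
  exact S.coe_lt.1 (h1'.trans_lt h2')

theorem arc_suc {n : M} (hn : E n om) : S.add (S.hh (suc n)) (S.hh (suc n)) = S.hh n := by
  rw [arc_mul S hn]
  have h : ((1 + 1 : S.T)⁻¹ * (arcT S (arc_mem S hn)) + (1 + 1 : S.T)⁻¹ * (arcT S (arc_mem S hn)))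
      = (arcT S (arc_mem S hn)) := by
    have h2 : (1 + 1 : S.T) ≠ 0 := by
      have : (0 : S.T) < 1 + 1 := by positivity
      exact this.ne'
    rw [← add_mul]
    have : (1 + 1 : S.T)⁻¹ + (1 + 1 : S.T)⁻¹ = 1 := by
      field_simp
    rw [this, one_mul]
  exact congrArg Subtype.val h

theorem arc_pos {n : M} (hn : E n om) : S.lt S.z (S.hh n) := by
  refine om_ind (C := fun n => S.lt S.z (S.hh n)) inferInstance ?_ ?_ n hn
  · rw [arc_zero]
    exact S.coe_lt.1 (zero_lt_one : (0 : S.T) < 1)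
  · intro n hn ih
    rw [arc_mul S hn]
    have h1 : (0 : S.T) < (arcT S (arc_mem S hn)) := S.coe_lt.2 ih
    have h2 : (0 : S.T) < (1 + 1 : S.T)⁻¹ * (arcT S (arc_mem S hn)) := by positivity
    exact S.coe_lt.1 h2

theorem arc_anti {n : M} (hn : E n om) : ∀ m, E m om → Sub m n → S.le (S.hh n) (S.hh m) := by
  refine om_ind (C := fun n : M => ∀ m : M, E m om → Sub m n → S.le (S.hh n) (S.hh m))
    inferInstance ?_ ?_ n hn
  · intro m hm h
    have : m = emp := eq_emp fun z hz => not_mem_emp z (h z hz)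
    subst this
    exact arc_le_refl S (arc_mem S hm)
  · intro n hn ih m hm h
    rcases (Ord.sub_iff (Ord_nat hm) (Ord_nat (suc_mem_om hn))).1 h with h | rfl
    swap
    · exact arc_le_refl S (arc_mem S hm)
    have h1 : S.le (S.hh (suc n)) (S.hh n) := by
      have e := arc_suc S hn
      have p : (0 : S.T) < (arcT S (arc_mem S (suc_mem_om hn))) :=
        S.coe_lt.2 (arc_pos S (suc_mem_om hn))
      have e' : (arcT S (arc_mem S (suc_mem_om hn))) +
        (arcT S (arc_mem S (suc_mem_om hn))) = (arcT S (arc_mem S hn)) := Subtype.ext e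
      have : (arcT S (arc_mem S (suc_mem_om hn))) ≤ (arcT S (arc_mem S hn)) := by
        linarith
      exact this
    have h2 : Sub m n := by
      rcases mem_suc.1 h with h | rfl
      · exact (Ord_nat hn).sub_of_mem h
      · exact Sub.refl _
    exact arc_le_trans S (arc_mem S (suc_mem_om hn)) (arc_mem S hn) (arc_mem S hm) h1
      (ih m hm h2)

theorem arc_sup {s b : M} (hs : Sub s S.R) (hne : ∃ a, E a s) (hb : E b S.R)
    (h : ∀ a, E a s → S.le a b) : ∃ c, S.IsSup s c := S.exists_sup hs hne hb h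

theorem arc_inf {s b : M} (hs : Sub s S.R) (hne : ∃ a, E a s) (hb : E b S.R)
    (h : ∀ a, E a s → S.le b a) : ∃ c, S.IsInf s c := by
  obtain ⟨a0, ha0⟩ := hne
  have hl : ∀ x, E x (sep S.R (fun b : M => ∀ a : M, E a s → S.le b a)) ↔
      E x S.R ∧ ∀ a : M, E a s → S.le x a := fun x => mem_sep' inferInstance
  obtain ⟨c, hc, h1, h2⟩ := S.exists_sup
    (s := sep S.R (fun b : M => ∀ a : M, E a s → S.le b a)) (fun x hx => ((hl x).1 hx).1)
    ⟨b, (hl b).2 ⟨hb, h⟩⟩ (hs a0 ha0) (fun x hx => ((hl x).1 hx).2 a0 ha0)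
  refine ⟨c, hc, fun a ha => h2 a (hs a ha) fun x hx => ((hl x).1 hx).2 a ha, fun b hb hb' =>
    h1 b ((hl b).2 ⟨hb, hb'⟩)⟩

theorem arc_small {r : M} (hr : E r S.R) (hr0 : S.lt S.z r) :
    ∃ n, E n om ∧ S.lt (S.hh n) r := by
  by_contra hcon
  push Not at hcon
  have h1 : ∀ n, E n om → S.le r (S.hh n) := fun n hn => by
    by_contra h
    exact hcon n hn (arc_lt_of_not_le S hr (arc_mem S hn) h)
  have hi : ∀ x, E x (img om (fun n : M => S.hh n)) ↔ ∃ n, E n om ∧ x = S.hh n :=
    fun x => mem_img' inferInstance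
  obtain ⟨c, hc, h2, h3⟩ := arc_inf S (s := img om (fun n : M => S.hh n)) (b := r)
    (fun x hx => by
      obtain ⟨n, hn, rfl⟩ := (hi x).1 hx
      exact arc_mem S hn)
    ⟨S.hh emp, (hi _).2 ⟨emp, emp_mem_om, rfl⟩⟩ hr (fun x hx => by
      obtain ⟨n, hn, rfl⟩ := (hi x).1 hx
      exact h1 n hn)
  have h4 : S.le r c := h3 r hr (fun x hx => by
      obtain ⟨n, hn, rfl⟩ := (hi x).1 hx
      exact h1 n hn)
  have h5 : S.le (S.add c c) c := by
    refine h3 _ (S.add_mem hc hc) fun x hx => ?_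
    obtain ⟨n, hn, rfl⟩ := (hi x).1 hx
    have h6 : (arcT S hc) ≤ (arcT S (arc_mem S (suc_mem_om hn))) :=
      h2 _ ((hi _).2 ⟨suc n, suc_mem_om hn, rfl⟩)
    have e : (arcT S (arc_mem S (suc_mem_om hn))) +
        (arcT S (arc_mem S (suc_mem_om hn))) = (arcT S (arc_mem S hn)) :=
      Subtype.ext (arc_suc S hn)
    have h7 : (arcT S hc) + (arcT S hc) ≤ (arcT S (arc_mem S hn)) := by linarith
    exact h7
  have h6 : (arcT S hc) + (arcT S hc) ≤ (arcT S hc) := h5
  have h7 : (0 : S.T) < (arcT S hr) := S.coe_lt.2 hr0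
  have h8 : (arcT S hr) ≤ (arcT S hc) := h4
  linarith

end

theorem ma_arc : ARCStmt := fun M _ _ S =>
  { mem := arc_mem S
    zero := arc_zero S
    suc := arc_suc S
    pos := arc_pos S
    anti := fun hm hn h => arc_anti S hn _ hm h
    small := arc_small S
    sup := arc_sup S
    inf := arc_inf S }

end SW
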