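import Pool.Agent.H13.MA.MStmts
import Pool.Agent.H31.MA.ARC
import Mathlib.Tactic.Linarith
import Mathlib.Tactic.FieldSimp
import Mathlib.Tactic.Ring

/-!
Module DYA: a family indexed by a dense set of numbers in `[0, 1]`, increasing for a relation
with the interpolation property.
-/

set_option linter.unusedVariables false
set_option synthInstance.maxSize 100000

namespace SW

/-- the invariant of the construction, in a linearly ordered field -/
structure DyaInv {F A : Type} [Field F] [LinearOrder F] [IsStrictOrderedRing F] (TT : A → Prop)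
    (Q : A → A → Prop) (D : F → A → Prop) (h : F) : Prop where
  rng : ∀ r U, D r U → 0 ≤ r ∧ r ≤ 1 ∧ TT U
  inc : ∀ r U r' U', D r U → D r' U' → r < r' → Q U U'
  fn : ∀ r U U', D r U → D r U' → U = U'
  gap : ∀ r U r' U', D r U → D r' U' → r < r' → r + h ≤ r'
  nxt : ∀ r U, D r U → r < 1 → ∃ U', D (r + h) U'

theorem dya_step {F A : Type} [Field F] [LinearOrder F] [IsStrictOrderedRing F] {TT : A → Prop}
    {Q : A → A → Prop} {W : A → A → A} (hQ : ∀ U V W, Q U V → Q V W → Q U W)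
    (hW : ∀ U V, TT U → TT V → Q U V → TT (W U V) ∧ Q U (W U V) ∧ Q (W U V) V)
    {D D' : F → A → Prop} {h h' : F} (hh : h' + h' = h) (h0 : 0 < h') (hI : DyaInv TT Q D h)
    (hD' : ∀ r U, D' r U ↔ D r U ∨ ∃ r1 U1 U2, D r1 U1 ∧ D (r1 + h) U2 ∧ r = r1 + h' ∧
      U = W U1 U2) : DyaInv TT Q D' h' := by
  have new : ∀ r1 U1 U2, D r1 U1 → D (r1 + h) U2 →
      TT (W U1 U2) ∧ Q U1 (W U1 U2) ∧ Q (W U1 U2) U2 := fun r1 U1 U2 h1 h2 =>
    hW U1 U2 (hI.rng _ _ h1).2.2 (hI.rng _ _ h2).2.2 (hI.inc _ _ _ _ h1 h2 (by linarith))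
  have cmp : ∀ r U r1 U1, D r U → D r1 U1 → r ≤ r1 ∨ r1 + h ≤ r := fun r U r1 U1 h1 h2 => by
    rcases le_or_gt r r1 with h3 | h3
    · exact Or.inl h3
    · exact Or.inr (hI.gap _ _ _ _ h2 h1 h3)
  have low : ∀ r U r1 U1 X, D r U → D r1 U1 → r ≤ r1 → Q U1 X → Q U X := by
    intro r U r1 U1 X h1 h2 h3 h4
    rcases h3.lt_or_eq with h5 | h5
    · exact hQ _ _ _ (hI.inc _ _ _ _ h1 h2 h5) h4
    · subst h5
      rw [hI.fn _ _ _ h1 h2]; exact h4
  have upp : ∀ r U r1 U1 X, D r U → D r1 U1 → r1 ≤ r → Q X U1 → Q X U := by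
    intro r U r1 U1 X h1 h2 h3 h4
    rcases h3.lt_or_eq with h5 | h5
    · exact hQ _ _ _ h4 (hI.inc _ _ _ _ h2 h1 h5)
    · subst h5
      rw [← hI.fn _ _ _ h2 h1]; exact h4
  refine ⟨?_, ?_, ?_, ?_, ?_⟩
  · intro r U hr
    rcases (hD' r U).1 hr with hr | ⟨r1, U1, U2, h1, h2, rfl, rfl⟩
    · exact hI.rng _ _ hr
    · have h3 := (hI.rng _ _ h1).1
      have h4 := (hI.rng _ _ h2).2.1
      exact ⟨by linarith, by linarith, (new _ _ _ h1 h2).1⟩
  · intro r U r' U' hr hr' hlt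
    rcases (hD' r U).1 hr with hr | ⟨r1, U1, U2, h1, h2, rfl, rfl⟩
    · rcases (hD' r' U').1 hr' with hr' | ⟨s1, V1, V2, k1, k2, rfl, rfl⟩
      · exact hI.inc _ _ _ _ hr hr' hlt
      · have hle : r ≤ s1 := by
          rcases cmp _ _ _ _ hr k1 with h3 | h3
          · exact h3
          · linarith
        exact low _ _ _ _ _ hr k1 hle (new _ _ _ k1 k2).2.1
    · rcases (hD' r' U').1 hr' with hr' | ⟨s1, V1, V2, k1, k2, rfl, rfl⟩
      · have hle : r1 + h ≤ r' := by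
          rcases cmp _ _ _ _ hr' h1 with h3 | h3
          · linarith
          · exact h3
        exact upp _ _ _ _ _ hr' h2 hle (new _ _ _ h1 h2).2.2
      · have h3 : r1 < s1 := by linarith
        have h4 := hI.gap _ _ _ _ h1 k1 h3
        have h5 : Q (W U1 U2) V1 := upp _ _ _ _ _ k1 h2 h4 (new _ _ _ h1 h2).2.2
        exact hQ _ _ _ h5 (new _ _ _ k1 k2).2.1
  · intro r U U' hr hr'
    rcases (hD' r U).1 hr with hr | ⟨r1, U1, U2, h1, h2, rfl, rfl⟩
    · rcases (hD' r U').1 hr' with hr' | ⟨s1, V1, V2, k1, k2, rfl, rfl⟩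
      · exact hI.fn _ _ _ hr hr'
      · rcases cmp _ _ _ _ hr k1 with h3 | h3 <;> exact absurd h3 (by linarith)
    · rcases (hD' _ U').1 hr' with hr' | ⟨s1, V1, V2, k1, k2, h3, rfl⟩
      · rcases cmp _ _ _ _ hr' h1 with h3 | h3 <;> exact absurd h3 (by linarith)
      · have h4 : r1 = s1 := by linarith
        subst h4
        rw [hI.fn _ _ _ h1 k1, hI.fn _ _ _ h2 k2]
  · intro r U r' U' hr hr' hlt
    rcases (hD' r U).1 hr with hr | ⟨r1, U1, U2, h1, h2, rfl, rfl⟩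
    · rcases (hD' r' U').1 hr' with hr' | ⟨s1, V1, V2, k1, k2, rfl, rfl⟩
      · have := hI.gap _ _ _ _ hr hr' hlt
        linarith
      · rcases cmp _ _ _ _ hr k1 with h3 | h3
        · linarith
        · linarith
    · rcases (hD' r' U').1 hr' with hr' | ⟨s1, V1, V2, k1, k2, rfl, rfl⟩
      · rcases cmp _ _ _ _ hr' h1 with h3 | h3
        · linarith
        · linarith
      · have h3 : r1 < s1 := by linarith
        have h4 := hI.gap _ _ _ _ h1 k1 h3
        linarith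
  · intro r U hr hlt
    rcases (hD' r U).1 hr with hr | ⟨r1, U1, U2, h1, h2, rfl, rfl⟩
    · obtain ⟨U', hU'⟩ := hI.nxt _ _ hr hlt
      exact ⟨W U U', (hD' _ _).2 (Or.inr ⟨r, U, U', hr, hU', rfl, rfl⟩)⟩
    · refine ⟨U2, (hD' _ _).2 (Or.inl ?_)⟩
      have : r1 + h' + h' = r1 + h := by rw [← hh]; ring
      rw [this]; exact h2

section
variable {M : Type} [SetStr M] [ZF M] (S : RNum M) (T U0 U1 : M) (Q : M → M → Prop)

/-- the invariant in `M` -/
def DyaM (D h : M) : Prop :=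
  (∀ p, E p D → ∃ r U, E r S.R ∧ p = opair r U) ∧
  (∀ r U, E (opair r U) D → S.le S.z r ∧ S.le r S.u ∧ E U T) ∧
  (∀ r U r' U', E (opair r U) D → E (opair r' U') D → S.lt r r' → Q U U') ∧
  (∀ r U U', E (opair r U) D → E (opair r U') D → U = U') ∧
  (∀ r U r' U', E (opair r U) D → E (opair r' U') D → S.lt r r' → S.le (S.add r h) r') ∧
  (∀ r U, E (opair r U) D → S.lt r S.u → ∃ U', E (opair (S.add r h) U') D) ∧
  E (opair S.z U0) D ∧ E (opair S.u U1) D

theorem DyaM_df [hQ : Cl2 Q] : Cl2 (fun D h : M => DyaM S T U0 U1 Q D h) := by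
  unfold DyaM; infer_instance

/-- the step -/
noncomputable def dyaH (g D : M) : M :=
  bun D (sep (prod S.R T) (fun p : M => ∃ r U r' U' : M, E (opair r U) D ∧ E (opair r' U') D ∧
    S.lt r r' ∧ (∀ r'' U'' : M, E (opair r'' U'') D → S.le r'' r ∨ S.le r' r'') ∧
    p = opair (S.mul S.hf (S.add r r')) (app g (sep T (fun W : M => Q U W ∧ Q W U')))))

theorem dyaH_df [hQ : Cl2 Q] (g : M) : Fn1 (fun D : M => dyaH S T Q g D) := by
  unfold dyaH; infer_instance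

theorem mem_dyaH [hQ : Cl2 Q] {g D p : M} : E p (dyaH S T Q g D) ↔ E p D ∨
    (E p (prod S.R T) ∧ ∃ r U r' U' : M, E (opair r U) D ∧ E (opair r' U') D ∧
    S.lt r r' ∧ (∀ r'' U'' : M, E (opair r'' U'') D → S.le r'' r ∨ S.le r' r'') ∧
    p = opair (S.mul S.hf (S.add r r')) (app g (sep T (fun W : M => Q U W ∧ Q W U')))) := by
  unfold dyaH
  rw [mem_bun, mem_sep' inferInstance]

/-- the element of the field given by a member of the carrier -/
def dyaT {a : M} (ha : E a S.R) : S.T := ⟨a, ha⟩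

theorem dya_to {D h : M} (hM : DyaM S T U0 U1 Q D h) (hh : E h S.R) :
    DyaInv (fun U : M => E U T) Q (fun (r : S.T) U => E (opair r.1 U) D) (dyaT S hh) := by
  obtain ⟨h1, h2, h3, h4, h5, h6, h7, h8⟩ := hM
  refine ⟨?_, ?_, ?_, ?_, ?_⟩
  · intro r U hr
    exact h2 r.1 U hr
  · intro r U r' U' hr hr' hlt
    exact h3 _ _ _ _ hr hr' (S.coe_lt.1 hlt)
  · intro r U U' hr hr'
    exact h4 _ _ _ hr hr'
  · intro r U r' U' hr hr' hlt
    exact h5 _ _ _ _ hr hr' (S.coe_lt.1 hlt)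
  · intro r U hr hlt
    exact h6 r.1 U hr (S.coe_lt.1 hlt)

theorem dya_of {D h : M} (hh : E h S.R)
    (hI : DyaInv (fun U : M => E U T) Q (fun (r : S.T) U => E (opair r.1 U) D) (dyaT S hh))
    (h1 : ∀ p, E p D → ∃ r U, E r S.R ∧ p = opair r U) (h7 : E (opair S.z U0) D)
    (h8 : E (opair S.u U1) D) : DyaM S T U0 U1 Q D h := by
  have hR : ∀ r U, E (opair r U) D → E r S.R := by
    intro r U hr
    obtain ⟨r', U', hr', e⟩ := h1 _ hr
    rw [opair_inj] at e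
    rw [e.1]; exact hr'
  refine ⟨h1, ?_, ?_, ?_, ?_, ?_, h7, h8⟩
  · intro r U hr
    exact hI.rng (dyaT S (hR _ _ hr)) U hr
  · intro r U r' U' hr hr' hlt
    exact hI.inc (dyaT S (hR _ _ hr)) U (dyaT S (hR _ _ hr')) U' hr hr' (S.coe_lt.2 hlt)
  · intro r U U' hr hr'
    exact hI.fn (dyaT S (hR _ _ hr)) U U' hr hr'
  · intro r U r' U' hr hr' hlt
    exact hI.gap (dyaT S (hR _ _ hr)) U (dyaT S (hR _ _ hr')) U' hr hr' (S.coe_lt.2 hlt)
  · intro r U hr hlt
    exact hI.nxt (dyaT S (hR _ _ hr)) U hr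
      ((RNum.coe_lt S (a := dyaT S (hR _ _ hr)) (b := (1 : S.T))).2 hlt)

theorem dya_stepM [hQ : Cl2 Q] (htr : ∀ U V W, Q U V → Q V W → Q U W)
    (hint : ∀ U V, E U T → E V T → Q U V → ∃ W, E W T ∧ Q U W ∧ Q W V) {g D h h' : M}
    (hg : ChF T g) (hh : E h S.R) (hh' : E h' S.R) (hadd : S.add h' h' = h)
    (hpos : S.lt S.z h') (hM : DyaM S T U0 U1 Q D h) :
    DyaM S T U0 U1 Q (dyaH S T Q g D) h' := by
  have hI := dya_to S T U0 U1 Q hM hh
  have hR : ∀ r U, E (opair r U) D → E r S.R := by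
    intro r U hr
    obtain ⟨r', U', hr', e⟩ := hM.1 _ hr
    rw [opair_inj] at e
    rw [e.1]; exact hr'
  have hW : ∀ U V, E U T → E V T → Q U V →
      E (app g (sep T (fun W : M => Q U W ∧ Q W V))) T ∧
      Q U (app g (sep T (fun W : M => Q U W ∧ Q W V))) ∧
      Q (app g (sep T (fun W : M => Q U W ∧ Q W V))) V := by
    intro U V hU hV hUV
    have hm : ∀ x, E x (sep T (fun W : M => Q U W ∧ Q W V)) ↔ E x T ∧ Q U x ∧ Q x V :=
      fun x => mem_sep' inferInstance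
    obtain ⟨W, h1, h2, h3⟩ := hint U V hU hV hUV
    exact (hm _).1 (hg _ (fun x hx => ((hm x).1 hx).1) ⟨W, (hm W).2 ⟨h1, h2, h3⟩⟩)
  have ha : (dyaT S hh' + dyaT S hh' : S.T) = dyaT S hh := Subtype.ext hadd
  have hp : (0 : S.T) < dyaT S hh' := S.coe_lt.2 hpos
  have mid : ∀ a : S.T, (1 + 1 : S.T)⁻¹ * (a + (a + dyaT S hh)) = a + dyaT S hh' := by
    intro a
    rw [← ha]
    have h2 : (1 + 1 : S.T) ≠ 0 := by
      have : (0 : S.T) < 1 + 1 := by positivity
      exact this.ne'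
    field_simp
    ring
  refine dya_of S T U0 U1 Q hh' (dya_step (D := fun (r : S.T) U => E (opair r.1 U) D)
    (W := fun U V => app g (sep T (fun W : M => Q U W ∧ Q W V))) htr hW ha hp hI ?_) ?_
    ((mem_dyaH S T Q).2 (Or.inl hM.2.2.2.2.2.2.1)) ((mem_dyaH S T Q).2 (Or.inl hM.2.2.2.2.2.2.2))
  · intro r U
    rw [mem_dyaH]
    refine or_congr Iff.rfl ?_
    constructor
    · rintro ⟨_, r1, U1, r2, U2, k1, k2, k3, k4, k5⟩
      rw [opair_inj] at k5
      have hr1 := hR _ _ k1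
      have hr2 := hR _ _ k2
      have l1 : (dyaT S hr1 : S.T) < dyaT S hr2 := S.coe_lt.2 k3
      have l2 : (dyaT S hr2 : S.T) ≤ 1 := (hI.rng _ _ k2).2.1
      obtain ⟨U', hU'⟩ := hI.nxt (dyaT S hr1) U1 k1 (by linarith)
      have l3 : (dyaT S hr1 + dyaT S hh : S.T) ≤ dyaT S hr2 := hI.gap _ _ _ _ k1 k2 l1
      have l4 : (dyaT S hr1 + dyaT S hh : S.T) = dyaT S hr2 := by
        rcases k4 _ _ hU' with h | h
        · have h' : (dyaT S hr1 + dyaT S hh : S.T) ≤ dyaT S hr1 := h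
          linarith
        · have h' : dyaT S hr2 ≤ (dyaT S hr1 + dyaT S hh : S.T) := h
          exact le_antisymm l3 h'
      refine ⟨dyaT S hr1, U1, U2, k1, ?_, ?_, k5.2⟩
      · show E (opair (dyaT S hr1 + dyaT S hh : S.T).1 U2) D
        rw [l4]; exact k2
      · refine Subtype.ext ?_
        rw [← mid, l4]
        exact k5.1
    · rintro ⟨r1, U1, U2, k1, k2, rfl, rfl⟩
      have l1 : r1 < r1 + dyaT S hh := by linarith
      have hq := hI.inc _ _ _ _ k1 k2 l1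
      have hw := hW U1 U2 (hI.rng _ _ k1).2.2 (hI.rng _ _ k2).2.2 hq
      refine ⟨?_, r1.1, U1, (r1 + dyaT S hh).1, U2, k1, k2, S.coe_lt.1 l1, ?_, ?_⟩
      · rw [mem_prod]
        exact ⟨(r1 + dyaT S hh').2, hw.1⟩
      · intro r'' U'' h''
        rcases le_or_gt (dyaT S (hR _ _ h'')) r1 with h3 | h3
        · exact Or.inl h3
        · exact Or.inr (hI.gap _ _ _ _ k1 h'' h3)
      · rw [← mid]
        rfl
  · intro p hp
    rcases (mem_dyaH S T Q).1 hp with hp | hp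
    · exact hM.1 p hp
    · obtain ⟨a, b, ha, hb, rfl⟩ := mem_prod'.1 hp.1
      exact ⟨a, b, ha, rfl⟩

instance dyaH_inst [hQ : Cl2 Q] (g : M) {n : ℕ} {t : (Fin n → M) → M} [ht : DfT t] :
    DfT (fun v => dyaH S T Q g (t v)) := (dyaH_df S T Q g).comp1 ht

instance DyaM_inst [hQ : Cl2 Q] {n : ℕ} {t s : (Fin n → M) → M} [ht : DfT t] [hs : DfT s] :
    Df (fun v => DyaM S T U0 U1 Q (t v) (s v)) := (DyaM_df S T U0 U1 Q).comp2 ht hs

/-- the stages -/
noncomputable def dyaD (g n : M) : M :=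
  orec (upair (opair S.z U0) (opair S.u U1)) (fun D => dyaH S T Q g D) n

instance dyaD_inst [hQ : Cl2 Q] (g : M) {n : ℕ} {t : (Fin n → M) → M} [ht : DfT t] :
    DfT (fun v => dyaD S T U0 U1 Q g (t v)) := by
  unfold dyaD; infer_instance

theorem dyaD_zero [hQ : Cl2 Q] (g : M) :
    dyaD S T U0 U1 Q g emp = upair (opair S.z U0) (opair S.u U1) := by
  unfold dyaD; exact orec_zero inferInstance

theorem dyaD_suc [hQ : Cl2 Q] (g : M) {n : M} (hn : E n om) :
    dyaD S T U0 U1 Q g (suc n) = dyaH S T Q g (dyaD S T U0 U1 Q g n) := by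
  unfold dyaD; exact orec_suc inferInstance hn

theorem dya_base (hu : S.hh emp = S.u) (h0 : E U0 T) (h1 : E U1 T) (hQ01 : Q U0 U1) :
    DyaM S T U0 U1 Q (upair (opair S.z U0) (opair S.u U1)) (S.hh emp) := by
  have e1 : dyaT S S.ax.one_mem = (1 : S.T) := rfl
  have lt01 : (0 : S.T) < 1 := zero_lt_one
  have hm : ∀ r U, E (opair r U) (upair (opair S.z U0) (opair S.u U1)) ↔
      (r = S.z ∧ U = U0) ∨ (r = S.u ∧ U = U1) := by
    intro r U
    rw [mem_upair, opair_inj, opair_inj]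
  have hm' : ∀ (r : S.T) U, E (opair r.1 U) (upair (opair S.z U0) (opair S.u U1)) ↔
      (r = 0 ∧ U = U0) ∨ (r = 1 ∧ U = U1) := by
    intro r U
    rw [hm]
    refine or_congr (and_congr_left' ?_) (and_congr_left' ?_)
    · exact ⟨fun h => Subtype.ext h, fun h => congrArg Subtype.val h⟩
    · exact ⟨fun h => Subtype.ext h, fun h => congrArg Subtype.val h⟩
  rw [hu]
  refine dya_of S T U0 U1 Q S.ax.one_mem ?_ ?_ (by rw [mem_upair]; exact Or.inl rfl)
    (by rw [mem_upair]; exact Or.inr rfl)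
  · rw [e1]
    refine ⟨?_, ?_, ?_, ?_, ?_⟩
    · intro r U hr
      rcases (hm' r U).1 hr with ⟨rfl, rfl⟩ | ⟨rfl, rfl⟩
      · exact ⟨le_refl _, lt01.le, h0⟩
      · exact ⟨lt01.le, le_refl _, h1⟩
    · intro r U r' U' hr hr' hlt
      rcases (hm' r U).1 hr with ⟨rfl, rfl⟩ | ⟨rfl, rfl⟩
      · rcases (hm' r' U').1 hr' with ⟨rfl, rfl⟩ | ⟨rfl, rfl⟩
        · exact absurd hlt (lt_irrefl _)
        · exact hQ01
      · rcases (hm' r' U').1 hr' with ⟨rfl, rfl⟩ | ⟨rfl, rfl⟩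
        · exact absurd hlt (not_lt.2 lt01.le)
        · exact absurd hlt (lt_irrefl _)
    · intro r U U' hr hr'
      rcases (hm' r U).1 hr with ⟨rfl, rfl⟩ | ⟨rfl, rfl⟩
      · rcases (hm' _ U').1 hr' with ⟨h, rfl⟩ | ⟨h, rfl⟩
        · rfl
        · exact absurd h lt01.ne
      · rcases (hm' _ U').1 hr' with ⟨h, rfl⟩ | ⟨h, rfl⟩
        · exact absurd h lt01.ne'
        · rfl
    · intro r U r' U' hr hr' hlt
      rcases (hm' r U).1 hr with ⟨rfl, rfl⟩ | ⟨rfl, rfl⟩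
      · rcases (hm' r' U').1 hr' with ⟨rfl, rfl⟩ | ⟨rfl, rfl⟩
        · exact absurd hlt (lt_irrefl _)
        · rw [zero_add]
      · rcases (hm' r' U').1 hr' with ⟨rfl, rfl⟩ | ⟨rfl, rfl⟩
        · exact absurd hlt (not_lt.2 lt01.le)
        · exact absurd hlt (lt_irrefl _)
    · intro r U hr hlt
      rcases (hm' r U).1 hr with ⟨rfl, rfl⟩ | ⟨rfl, rfl⟩
      · exact ⟨U1, (hm' _ _).2 (Or.inr ⟨zero_add _, rfl⟩)⟩
      · exact absurd hlt (lt_irrefl _)
  · intro p hp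
    rw [mem_upair] at hp
    rcases hp with rfl | rfl
    · exact ⟨_, _, S.ax.zero_mem, rfl⟩
    · exact ⟨_, _, S.ax.one_mem, rfl⟩

end

theorem ma_dya (hacf : ACFStmt) : DYAStmt := by
  intro M _ _ S T U0 U1 Q hQ htr hint h0 h1 hQ01
  have hF : HFacts S := ma_arc M S
  obtain ⟨g, hg⟩ := hacf M T
  have inv : ∀ n, E n om → DyaM S T U0 U1 Q (dyaD S T U0 U1 Q g n) (S.hh n) := by
    refine om_ind (C := fun n : M => DyaM S T U0 U1 Q (dyaD S T U0 U1 Q g n) (S.hh n))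
      inferInstance ?_ ?_
    · rw [dyaD_zero]
      exact dya_base S T U0 U1 Q hF.zero h0 h1 hQ01
    · intro n hn ih
      rw [dyaD_suc S T U0 U1 Q g hn]
      exact dya_stepM S T U0 U1 Q htr hint hg (hF.mem hn) (hF.mem (suc_mem_om hn)) (hF.suc hn)
        (hF.pos (suc_mem_om hn)) ih
  have mono : ∀ n, E n om → ∀ m : M, E m om → Sub m n →
      Sub (dyaD S T U0 U1 Q g m) (dyaD S T U0 U1 Q g n) := by
    refine om_ind (C := fun n : M => ∀ m : M, E m om → Sub m n →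
      Sub (dyaD S T U0 U1 Q g m) (dyaD S T U0 U1 Q g n)) inferInstance ?_ ?_
    · intro m hm h
      have : m = emp := eq_emp fun z hz => not_mem_emp z (h z hz)
      rw [this]
      exact Sub.refl _
    · intro n hn ih m hm h
      rcases (Ord.sub_iff (Ord_nat hm) (Ord_nat (suc_mem_om hn))).1 h with h | rfl
      swap
      · exact Sub.refl _
      have h2 : Sub m n := by
        rcases mem_suc.1 h with h | rfl
        · exact (Ord_nat hn).sub_of_mem h
        · exact Sub.refl _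
      refine (ih m hm h2).trans fun z hz => ?_
      rw [dyaD_suc S T U0 U1 Q g hn]
      exact (mem_dyaH S T Q).2 (Or.inl hz)
  have hD : ∀ p, E p (sUn (img om (fun n : M => dyaD S T U0 U1 Q g n))) ↔
      ∃ n, E n om ∧ E p (dyaD S T U0 U1 Q g n) := by
    intro p
    rw [mem_sUn]
    constructor
    · rintro ⟨y, hy, hp⟩
      obtain ⟨n, hn, rfl⟩ := (mem_img' inferInstance).1 hy
      exact ⟨n, hn, hp⟩
    · rintro ⟨n, hn, hp⟩
      exact ⟨_, (mem_img' inferInstance).2 ⟨n, hn, rfl⟩, hp⟩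
  refine ⟨sUn (img om (fun n : M => dyaD S T U0 U1 Q g n)), ?_, ?_, ?_, ?_, ?_⟩
  · intro p hp
    obtain ⟨n, hn, hp⟩ := (hD p).1 hp
    obtain ⟨r, U, hr, rfl⟩ := (inv n hn).1 p hp
    obtain ⟨h2, h3, h4⟩ := (inv n hn).2.1 r U hp
    exact ⟨r, U, hr, h2, h3, h4, rfl⟩
  · exact (hD _).2 ⟨emp, emp_mem_om, by rw [dyaD_zero, mem_upair]; exact Or.inl rfl⟩
  · exact (hD _).2 ⟨emp, emp_mem_om, by rw [dyaD_zero, mem_upair]; exact Or.inr rfl⟩
  · intro r U r' U' hr hr' hlt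
    obtain ⟨n, hn, hr⟩ := (hD _).1 hr
    obtain ⟨n', hn', hr'⟩ := (hD _).1 hr'
    rcases Ord.tri (Ord_nat hn) (Ord_nat hn') with h | rfl | h
    · exact (inv n' hn').2.2.1 _ _ _ _
        (mono n' hn' n hn ((Ord_nat hn').sub_of_mem h) _ hr) hr' hlt
    · exact (inv n hn).2.2.1 _ _ _ _ hr hr' hlt
    · exact (inv n hn).2.2.1 _ _ _ _ hr
        (mono n hn n' hn' ((Ord_nat hn).sub_of_mem h) _ hr') hlt
  · intro s t hs ht hs0 hst ht1
    have l1 : (dyaT S hs : S.T) < dyaT S ht := S.coe_lt.2 hst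
    have l2 : (dyaT S ht : S.T) ≤ 1 := ht1
    have l3 : (0 : S.T) ≤ dyaT S hs := hs0
    have l4 : (0 : S.T) < dyaT S ht + -dyaT S hs := by linarith
    obtain ⟨n, hn, hn'⟩ := hF.small (dyaT S ht + -dyaT S hs).2 (S.coe_lt.1 l4)
    have l5 : (dyaT S (hF.mem hn) : S.T) < dyaT S ht + -dyaT S hs := S.coe_lt.2 hn'
    have hI := dya_to S T U0 U1 Q (inv n hn) (hF.mem hn)
    have hpos : (0 : S.T) < dyaT S (hF.mem hn) := S.coe_lt.2 (hF.pos hn)
    have hL : ∀ r, E r (sep S.R (fun r : M => S.le r s ∧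
        ∃ U : M, E (opair r U) (dyaD S T U0 U1 Q g n))) ↔ E r S.R ∧ S.le r s ∧
        ∃ U : M, E (opair r U) (dyaD S T U0 U1 Q g n) := fun r => mem_sep' inferInstance
    obtain ⟨c, hc, c1, c2⟩ := hF.sup (s := sep S.R (fun r : M => S.le r s ∧
        ∃ U : M, E (opair r U) (dyaD S T U0 U1 Q g n))) (b := s) (fun r hr => ((hL r).1 hr).1)
      ⟨S.z, (hL _).2 ⟨S.ax.zero_mem, hs0, U0, (inv n hn).2.2.2.2.2.2.1⟩⟩ hs
      (fun r hr => ((hL r).1 hr).2.1)
    have hex : ∃ (r : S.T) (U : M), r ≤ dyaT S hs ∧ E (opair r.1 U) (dyaD S T U0 U1 Q g n) ∧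
        dyaT S hc + -dyaT S (hF.mem hn) < r := by
      by_contra hcon
      push Not at hcon
      have h2 := c2 _ (dyaT S hc + -dyaT S (hF.mem hn)).2 (fun a ha => by
        obtain ⟨ha1, ha2, U, ha3⟩ := (hL a).1 ha
        exact hcon (dyaT S ha1) U ha2 ha3)
      have h3 : (dyaT S hc : S.T) ≤ dyaT S hc + -dyaT S (hF.mem hn) := h2
      linarith
    obtain ⟨r, U, hr1, hr2, hr3⟩ := hex
    obtain ⟨U', hU'⟩ := hI.nxt r U hr2 (by linarith)
    refine ⟨(r + dyaT S (hF.mem hn)).1, U', (hD _).2 ⟨n, hn, hU'⟩, ?_, ?_⟩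
    · have : (dyaT S hs : S.T) < r + dyaT S (hF.mem hn) := by
        by_contra hcon
        push Not at hcon
        have h2 : r + dyaT S (hF.mem hn) ≤ dyaT S hc :=
          c1 _ ((hL _).2 ⟨(r + dyaT S (hF.mem hn)).2, hcon, U', hU'⟩)
        linarith
      exact S.coe_lt.1 this
    · have : r + dyaT S (hF.mem hn) < dyaT S ht := by linarith
      exact S.coe_lt.1 this

end SW
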