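import Pool.Agent.H13.MA.Stmts

/-!
Module FNX: finite subsets (in the extension) of sets of `M` are in `M`.
-/

set_option linter.unusedVariables false
set_option synthInstance.maxSize 100000

namespace SW

theorem ma_fnx : FNXStmt := by
  intro M _ _ F G hG _ X a ha hsub
  have tf := traF hG
  have ef := embF hG
  have key : E a (emb F G (Fs X)) := by
    refine (finF (M := Ext F G)).ind
      (fun a : Ext F G => Sub a (emb F G X) → E a (emb F G (Fs X))) inferInstance ?_ ?_ a ha hsub
    · intro _
      rw [← tf.emp, ef.mem]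
      unfold Fs
      rw [mem_sep, mem_pow]
      exact ⟨fun z hz => absurd hz (not_mem_emp z), finF.emp⟩
    · intro x y hx hyx ih hs
      have h1 : Sub x (emb F G X) := fun z hz => hs z (mem_ins.2 (Or.inl hz))
      obtain ⟨x', hx', rfl⟩ := ef.trans _ _ (ih h1)
      obtain ⟨y', hy', rfl⟩ := ef.trans _ _ (hs y (mem_ins.2 (Or.inr rfl)))
      unfold Fs at hx'
      rw [mem_sep, mem_pow] at hx'
      rw [← tf.ins, ef.mem]
      unfold Fs
      rw [mem_sep, mem_pow]
      refine ⟨fun z hz => ?_, finF.ins hx'.2⟩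
      rcases mem_ins.1 hz with hz | rfl
      · exact hx'.1 z hz
      · exact hy'
  obtain ⟨b, hb, rfl⟩ := ef.trans _ _ key
  unfold Fs at hb
  rw [mem_sep, mem_pow] at hb
  exact ⟨b, hb.2, hb.1, rfl⟩

end SW
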