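import Pool.Agent.H13.MA.Stmts

/-!
Module WX: the first uncountable ordinal is preserved by ccc forcing; countable sets stay
countable.
-/

set_option linter.unusedVariables false
set_option synthInstance.maxSize 100000

namespace SW

theorem wx_cb {M : Type} [SetStr M] [ZF M] {F : FPoset M} {G : M → Prop} (hG : Gen F G)
    [ZF (Ext F G)] {x : M} (h : Cb x) : Cb (emb F G x) := by
  have tf := traF hG
  have ef := embF hG
  obtain ⟨f, h1, h2⟩ := h
  refine ⟨emb F G f, fun y hy => ?_, fun y y' n hy hy' hn hf hf' => ?_⟩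
  · obtain ⟨y, hy1, rfl⟩ := ef.trans _ _ hy
    obtain ⟨n, hn, hf⟩ := h1 y hy1
    refine ⟨emb F G n, ?_, ?_⟩
    · rw [← tf.om, ef.mem]; exact hn
    · rw [← tf.opair, ef.mem]; exact hf
  · obtain ⟨y, hy1, rfl⟩ := ef.trans _ _ hy
    obtain ⟨y', hy2, rfl⟩ := ef.trans _ _ hy'
    rw [← tf.om] at hn
    obtain ⟨n, hn1, rfl⟩ := ef.trans _ _ hn
    rw [← tf.opair, ef.mem] at hf hf'
    rw [h2 y y' n hy1 hy2 hn1 hf hf']

theorem ma_wx (hcov : COVStmt) (hcba : CBAStmt) : WXStmt := by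
  intro M _ _ _ w I G hw hc hG _
  have tf := traF hG
  have ef := embF hG
  have h3 : ∀ x : M, Cb (emb (PF w I) G x) → Cb x := by
    intro x hx
    obtain ⟨c, hcc, hsub⟩ := hcov M w I G hw hc hG x (emb (PF w I) G x) hx (Sub.refl _)
    exact (hcba M).sub hcc ((tf.sub x c).1 hsub)
  refine ⟨⟨tf.ord w hw.1, fun h => hw.2.1 (h3 w h), fun a ha => ?_⟩, fun x hx => wx_cb hG hx, h3⟩
  obtain ⟨b, hb, rfl⟩ := ef.trans _ _ ha
  exact wx_cb hG (hw.2.2 b hb)

end SW
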